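import Pool.Agent.H33.HH.TC

/-!
# MP_347b49_nt: row EM2, sums over pairs of integers
-/

set_option autoImplicit false

open NumberField Complex Filter Topology MeasureTheory
open scoped ContDiff nonZeroDivisors

namespace Pool.Agent.H7.HH

open Pool.Agent.H33.HH

/-- a bound for a function supported in an interval -/
private theorem aux_iterD {h : ℝ → ℝ} {a r M : ℝ} {k : ℕ} (hr : 0 ≤ r)
    (h0 : ∀ y, r < |y - a| → h y = 0) (hb : ∀ y, |iteratedDeriv k h y| ≤ M) :
    ∫ y, |iteratedDeriv k h y| ≤ 2 * r * M := by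
  have h1 : ∀ y, |iteratedDeriv k h y| ≤ (Set.Icc (a - r) (a + r)).indicator (fun _ => M) y := by
    intro y
    by_cases hy : y ∈ Set.Icc (a - r) (a + r)
    · rw [Set.indicator_of_mem hy]
      exact hb y
    · rw [Set.indicator_of_notMem hy]
      have hz : h =ᶠ[𝓝 y] fun _ => 0 := by
        have : (Set.Icc (a - r) (a + r))ᶜ ∈ 𝓝 y := isClosed_Icc.isOpen_compl.mem_nhds hy
        filter_upwards [this] with z hz
        apply h0
        by_contra hc
        apply hz
        rw [not_lt, abs_le] at hc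
        exact ⟨by linarith [hc.1], by linarith [hc.2]⟩
      rw [hz.iteratedDeriv_eq k]
      simp
  have h2 : ∫ y, (Set.Icc (a - r) (a + r)).indicator (fun _ => M) y = 2 * r * M := by
    rw [integral_indicator_const _ measurableSet_Icc, Real.volume_real_Icc_of_le (by linarith)]
    simp only [smul_eq_mul]
    ring
  rw [← h2]
  refine integral_mono_of_nonneg (Filter.Eventually.of_forall fun y => abs_nonneg _) ?_
    (Filter.Eventually.of_forall h1)
  rw [integrable_indicator_iff measurableSet_Icc]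
  exact integrableOn_const (by simp)

/-- derivatives along a coordinate -/
private theorem aux_line {f : ℝ × ℝ → ℝ} {M : ℝ} {k : ℕ} (hf : ContDiff ℝ ∞ f)
    (hM : ∀ x, ‖iteratedFDeriv ℝ k f x‖ ≤ M) (L : ℝ →L[ℝ] ℝ × ℝ) (hL : ‖L‖ ≤ 1) (a : ℝ × ℝ)
    (y : ℝ) : |iteratedDeriv k (fun y => f (L y + a)) y| ≤ M := by
  have hf' : ContDiff ℝ ∞ fun z => f (z + a) := hf.comp (contDiff_id.add contDiff_const)
  have h1 : (fun y => f (L y + a)) = (fun z => f (z + a)) ∘ L := rfl
  have h2 := L.iteratedFDeriv_comp_right hf' y (i := k) (by exact_mod_cast le_top)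
  rw [← Real.norm_eq_abs, ← norm_iteratedFDeriv_eq_norm_iteratedDeriv, h1, h2,
    iteratedFDeriv_comp_add_right]
  refine (ContinuousMultilinearMap.norm_compContinuousLinearMap_le _ _).trans ?_
  have h3 : ∏ _i : Fin k, ‖L‖ ≤ 1 := by
    apply Finset.prod_le_one
    · intro i _
      exact norm_nonneg _
    · intro i _
      exact hL
  calc ‖iteratedFDeriv ℝ k f (L y + a)‖ * ∏ _i : Fin k, ‖L‖
      ≤ ‖iteratedFDeriv ℝ k f (L y + a)‖ * 1 :=
        mul_le_mul_of_nonneg_left h3 (norm_nonneg _)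
    _ ≤ M := by
      rw [mul_one]
      exact hM _

private theorem mem_I {p r : ℝ} {m : ℤ} (h : ¬ r < |(m : ℝ) - p|) :
    m ∈ Finset.Icc ⌈p - r⌉ ⌊p + r⌋ := by
  rw [not_lt, abs_le] at h
  rw [Finset.mem_Icc, Int.ceil_le, Int.le_floor]
  exact ⟨by linarith [h.1], by linarith [h.2]⟩

private theorem card_I {p r : ℝ} (hr : 0 ≤ r) :
    ((Finset.Icc ⌈p - r⌉ ⌊p + r⌋).card : ℝ) ≤ 2 * r + 1 := by
  rw [Int.card_Icc]
  have h1 := Int.le_ceil (p - r)
  have h2 := Int.floor_le (p + r)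
  rcases le_total 0 (⌊p + r⌋ + 1 - ⌈p - r⌉) with h | h
  · have h3 : (((⌊p + r⌋ + 1 - ⌈p - r⌉).toNat : ℕ) : ℝ) = ((⌊p + r⌋ + 1 - ⌈p - r⌉ : ℤ) : ℝ) := by
      exact_mod_cast Int.toNat_of_nonneg h
    rw [h3]
    push_cast
    linarith
  · rw [Int.toNat_of_nonpos h]
    push_cast
    linarith

theorem pf_EM2 (h : T_EM1) : T_EM2 := by
  intro k hk
  obtain ⟨C, hC, hE⟩ := h k hk
  refine ⟨8 * C, by positivity, ?_⟩
  intro f p r M hf hr h0 hM
  have hM0 : 0 ≤ M := (norm_nonneg _).trans (hM 0)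
  have hcont : Continuous f := hf.continuous
  -- the box
  have hbox : ∀ x ∉ Set.Icc (p.1 - r) (p.1 + r) ×ˢ Set.Icc (p.2 - r) (p.2 + r), f x = 0 := by
    intro x hx
    apply h0
    by_contra hc
    push Not at hc
    obtain ⟨h1, h2⟩ := hc
    rw [abs_le] at h1 h2
    exact hx ⟨⟨by linarith [h1.1], by linarith [h1.2]⟩, ⟨by linarith [h2.1], by linarith [h2.2]⟩⟩
  have hcs : HasCompactSupport f := HasCompactSupport.intro (isCompact_Icc.prod isCompact_Icc) hbox
  have hint : Integrable f := hcont.integrable_of_hasCompactSupport hcs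
  have hint' : Integrable f ((volume : Measure ℝ).prod (volume : Measure ℝ)) := hint
  -- the sections
  have hx0 : ∀ x y, r < |y - p.2| → f (x, y) = 0 := fun x y hy => h0 _ (Or.inr hy)
  have hy0 : ∀ y x, r < |x - p.1| → f (x, y) = 0 := fun y x hx => h0 _ (Or.inl hx)
  have hnI : ∀ {q z : ℝ}, z ∉ Set.Icc (q - r) (q + r) → r < |z - q| := by
    intro q z hz
    by_contra hc
    rw [not_lt, abs_le] at hc
    exact hz ⟨by linarith [hc.1], by linarith [hc.2]⟩
  have hxs : ∀ x, ContDiff ℝ ∞ fun y => f (x, y) := fun x =>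
    hf.comp (contDiff_const.prodMk contDiff_id)
  have hys : ∀ y, ContDiff ℝ ∞ fun x => f (x, y) := fun y =>
    hf.comp (contDiff_id.prodMk contDiff_const)
  have hxc : ∀ x, HasCompactSupport fun y => f (x, y) := fun x =>
    HasCompactSupport.intro isCompact_Icc fun y hy => hx0 x y (hnI hy)
  have hyc : ∀ y, HasCompactSupport fun x => f (x, y) := fun y =>
    HasCompactSupport.intro isCompact_Icc fun x hx => hy0 y x (hnI hx)
  have hxd : ∀ x y, |iteratedDeriv k (fun y => f (x, y)) y| ≤ M := by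
    intro x y
    have := aux_line hf hM (ContinuousLinearMap.inr ℝ ℝ ℝ)
      (ContinuousLinearMap.norm_inr_le_one ℝ ℝ ℝ) (x, 0) y
    simpa using this
  have hyd : ∀ y x, |iteratedDeriv k (fun x => f (x, y)) x| ≤ M := by
    intro y x
    have := aux_line hf hM (ContinuousLinearMap.inl ℝ ℝ ℝ)
      (ContinuousLinearMap.norm_inl_le_one ℝ ℝ ℝ) (0, y) x
    simpa using this
  let A : Finset ℤ := Finset.Icc ⌈p.1 - r⌉ ⌊p.1 + r⌋
  let B : Finset ℤ := Finset.Icc ⌈p.2 - r⌉ ⌊p.2 + r⌋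
  have hA : ∀ m : ℤ, m ∉ A → r < |(m : ℝ) - p.1| := by
    intro m hm
    by_contra hc
    exact hm (mem_I hc)
  have hB : ∀ m : ℤ, m ∉ B → r < |(m : ℝ) - p.2| := by
    intro m hm
    by_contra hc
    exact hm (mem_I hc)
  -- the sums are finite
  have hs : ∑' z : ℤ × ℤ, f (z.1, z.2) = ∑ m ∈ A, ∑ n ∈ B, f (m, n) := by
    rw [tsum_eq_sum (s := A ×ˢ B), Finset.sum_product]
    intro z hz
    rw [Finset.mem_product, not_and_or] at hz
    rcases hz with hz | hz
    · exact hy0 _ _ (hA _ hz)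
    · exact hx0 _ _ (hB _ hz)
  have hsx : ∀ x : ℝ, ∑' n : ℤ, f (x, n) = ∑ n ∈ B, f (x, n) := fun x =>
    tsum_eq_sum fun n hn => hx0 _ _ (hB _ hn)
  have hsy : ∀ y : ℝ, ∑' m : ℤ, f (m, y) = ∑ m ∈ A, f (m, y) := fun y =>
    tsum_eq_sum fun m hm => hy0 _ _ (hA _ hm)
  -- the sum over the second variable
  have h1 : ∀ x : ℝ, |(∑ n ∈ B, f (x, n)) - ∫ y, f (x, y)| ≤ C * (2 * r * M) := by
    intro x
    have := hE (fun y => f (x, y)) (hxs x) (hxc x)
    rw [hsx x] at this
    exact this.trans (mul_le_mul_of_nonneg_left (aux_iterD hr (hx0 x) (hxd x)) hC)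
  have h2 : ∀ y : ℝ, |(∑ m ∈ A, f (m, y)) - ∫ x, f (x, y)| ≤ C * (2 * r * M) := by
    intro y
    have := hE (fun x => f (x, y)) (hys y) (hyc y)
    rw [hsy y] at this
    exact this.trans (mul_le_mul_of_nonneg_left (aux_iterD hr (hy0 y) (hyd y)) hC)
  have h3 : |(∑ m ∈ A, ∑ n ∈ B, f (m, n)) - ∑ m ∈ A, ∫ y, f (m, y)| ≤
      (2 * r + 1) * (C * (2 * r * M)) := by
    rw [← Finset.sum_sub_distrib]
    refine (Finset.abs_sum_le_sum_abs _ _).trans ?_
    refine (Finset.sum_le_sum fun (m : ℤ) _ => h1 (m : ℝ)).trans ?_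
    rw [Finset.sum_const, nsmul_eq_mul]
    exact mul_le_mul_of_nonneg_right (card_I hr) (by positivity)
  -- the integral of the sum over the first variable
  have hfy : ∀ m : ℝ, Integrable fun y => f (m, y) := fun m =>
    (hxs m).continuous.integrable_of_hasCompactSupport (hxc m)
  have h4 : ∑ m ∈ A, ∫ y, f (m, y) = ∫ y, ∑ m ∈ A, f (m, y) :=
    (integral_finsetSum A fun m _ => hfy m).symm
  have h5 : ∫ x, f x = ∫ y, ∫ x, f (x, y) := by
    rw [Measure.volume_eq_prod, integral_prod_symm f hint']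
  have h6 : |(∑ m ∈ A, ∫ y, f (m, y)) - ∫ x, f x| ≤ 2 * r * (C * (2 * r * M)) := by
    rw [h4, h5, ← integral_sub (integrable_finsetSum A fun m _ => hfy m)
      hint'.integral_prod_right, ← Real.norm_eq_abs]
    have h7 : ∫ y, (Set.Icc (p.2 - r) (p.2 + r)).indicator (fun _ => C * (2 * r * M)) y =
        2 * r * (C * (2 * r * M)) := by
      rw [integral_indicator_const _ measurableSet_Icc, Real.volume_real_Icc_of_le (by linarith)]
      simp only [smul_eq_mul]
      ring
    rw [← h7]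
    refine norm_integral_le_of_norm_le ?_ (Filter.Eventually.of_forall fun y => ?_)
    · rw [integrable_indicator_iff measurableSet_Icc]
      exact integrableOn_const (by simp)
    · rw [Real.norm_eq_abs]
      by_cases hy : y ∈ Set.Icc (p.2 - r) (p.2 + r)
      · rw [Set.indicator_of_mem hy]
        exact h2 y
      · rw [Set.indicator_of_notMem hy]
        have h8 : ∀ x, f (x, y) = 0 := fun x => hx0 x y (hnI hy)
        simp [h8]
  rw [hs]
  have h9 : |(∑ m ∈ A, ∑ n ∈ B, f (m, n)) - ∫ x, f x| ≤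
      (2 * r + 1) * (C * (2 * r * M)) + 2 * r * (C * (2 * r * M)) := by
    refine (abs_sub_le _ (∑ m ∈ A, ∫ y, f (m, y)) _).trans ?_
    exact add_le_add h3 h6
  refine h9.trans ?_
  have h10 : 0 ≤ C * M := mul_nonneg hC hM0
  nlinarith [mul_nonneg h10 hr]

end Pool.Agent.H7.HH
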